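import Mathlib
import Pool.Agent.TH87.FDC.Grig

set_option autoImplicit false

/-!
# Grigorchuk's group has neither finite decomposition complexity nor weak finite decomposition
complexity

The general theorem (`not_weakFDC_of_square`): a group `Γ` which contains an infinite finitely
generated group `K` that contains its own square `K × K` does not have weak FDC.

Idea of the proof. From `K × K ≤ K` one gets a tree of infinite subgroups, with generating sets
`s w` indexed by the finite binary words, such that incomparable words give commuting and
independent subgroups, and each subgroup contains the subgroups below it. For a family `S` of
subsets of `Γ` let `M(S)` be the group of families of functions `Γ → ZMod 2` supported in a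
uniformly bounded neighbourhood of the members of `S`; `Γ` acts on it by right translations.
For pairwise incomparable words `w_1, ..., w_n` consider the cubical complex which computes
(up to the top degree `n`) the cohomology of the product of the `n` commuting subgroups with
coefficients in `M(S)`. Call `S` acyclic if this cohomology vanishes in all degrees less than `n`,
for all `n` and all choices of words.
* Uniformly bounded families are acyclic, since the subgroups are infinite and independent.
* If for some `d` and for all scales `S` decomposes with `d + 1` colours into acyclic families,
  then `S` is acyclic: a class which is invariant under the subgroup of a word is also invariant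
  under all subgroups below it, so it extends to a cocycle of the same degree for a product with
  `d + 1` more factors; the product of this cocycle with the classes coming from the nerve of the
  decomposition vanishes after `d + 1` steps, and going back down the acyclicity of the pieces
  shows that the cocycle is a coboundary.
* The whole group is not acyclic: the constant function `1` is invariant.
-/

namespace Pool.Agent.Results.MP_bba340_al.GrigorchukNoWeakFDC

open Pool.Agent.TH87.FDC H812R5

/-- Grigorchuk's group, with the word metric of any finite generating set, has neither FDC nor
weak FDC. -/
theorem result :
    (∃ a b c d : Equiv.Perm Seq, IsGrig a b c d) ∧
    ∀ a b c d : Equiv.Perm Seq, IsGrig a b c d →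
      ∀ (S : Set (Subgroup.closure ({a, b, c, d} : Set (Equiv.Perm Seq)))), S.Finite →
        ∀ hS : Subgroup.closure S = ⊤,
          ¬ HasFDC (MetricFamily.single _ (wordMetric S hS)) ∧
          ¬ HasWeakFDC (MetricFamily.single _ (wordMetric S hS)) := by
  refine ⟨GE.taskGE, fun a b c d hG S hfin hS => ?_⟩
  have h := grig_not_weakFDC hG (wordMetric S hS) (properLeftInvariant_wordMetric hfin hS)
  exact ⟨fun h' => h h'.weak, h⟩

end Pool.Agent.Results.MP_bba340_al.GrigorchukNoWeakFDC
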